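import Pool.Agent.W117.GS.Stm

/-!
# Existence in the real plane (project GS)
-/

set_option autoImplicit false

open scoped ContDiff
open Filter Topology Set
open Pool.Agent.W117.GS
open Pool.Agent.Helper676.CS (lap dx dy dd dx_eq dy_eq contDiff_dd_infty)

noncomputable section

namespace Pool.Agent.W721.GS.E2

lemma dd_sub {f g : ℝ × ℝ → ℝ} (hf : ContDiff ℝ ∞ f) (hg : ContDiff ℝ ∞ g) (e : ℝ × ℝ) :
    dd e (fun x => f x - g x) = fun x => dd e f x - dd e g x := by
  funext x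
  unfold dd
  have h1 : DifferentiableAt ℝ f x := hf.differentiable (by simp) x
  have h2 : DifferentiableAt ℝ g x := hg.differentiable (by simp) x
  rw [fderiv_fun_sub h1 h2]
  rfl

lemma lap_sub {f g : ℝ × ℝ → ℝ} (hf : ContDiff ℝ ∞ f) (hg : ContDiff ℝ ∞ g) (x : ℝ × ℝ) :
    lap (fun x => f x - g x) x = lap f x - lap g x := by
  unfold lap
  rw [dx_eq, dy_eq, dd_sub hf hg, dd_sub hf hg,
    dd_sub (contDiff_dd_infty hf _) (contDiff_dd_infty hg _),
    dd_sub (contDiff_dd_infty hf _) (contDiff_dd_infty hg _)]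
  ring

/-- the nonlinearity -/
def Fn (a lam : ℝ) (q : U3 × ℝ) : ℝ :=
  lam * q.1.1 * Real.exp (a * (q.2 - q.1.2.1 * Real.exp q.2)) *
    (1 - q.1.2.1 * Real.exp q.2) - q.1.2.2

lemma Fn_smooth (a lam : ℝ) : ContDiff ℝ ∞ (Fn a lam) := by
  unfold Fn
  have h1 : ContDiff ℝ ∞ (fun q : U3 × ℝ => q.1.1) := contDiff_fst.comp contDiff_fst
  have h2 : ContDiff ℝ ∞ (fun q : U3 × ℝ => q.1.2.1) :=
    contDiff_fst.comp (contDiff_snd.comp contDiff_fst)
  have h3 : ContDiff ℝ ∞ (fun q : U3 × ℝ => q.1.2.2) :=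
    contDiff_snd.comp (contDiff_snd.comp contDiff_fst)
  have h4 : ContDiff ℝ ∞ (fun q : U3 × ℝ => q.2) := contDiff_snd
  have h5 : ContDiff ℝ ∞ (fun q : U3 × ℝ => q.1.2.1 * Real.exp q.2) := h2.mul h4.exp
  exact ((((contDiff_const.mul h1).mul ((contDiff_const.mul (h4.sub h5)).exp)).mul
    (contDiff_const.sub h5)).sub h3)

theorem main (hEX : PropEX) (hCX : PropCX) (hPA : PropPA) (hLV : PropLV) (hLW : PropLW)
    (hSB : PropSB) (hSP : PropSP) (hWB : PropWB) (hBB : PropBB) : PropE2 := by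
  intro a S n M ha hM hS hn haM
  -- the total multiplicity
  obtain ⟨N, hN⟩ : ∃ N : ℝ, N = ∑ p ∈ S, (n p : ℝ) := ⟨_, rfl⟩
  have hN1 : 1 ≤ N := by
    obtain ⟨p, hp⟩ := hS
    rw [hN]
    have h1 : (1 : ℝ) ≤ n p := by exact_mod_cast (hn p hp).1
    exact h1.trans (Finset.single_le_sum (f := fun p => (n p : ℝ)) (fun i _ => Nat.cast_nonneg _) hp)
  obtain ⟨m, hm⟩ : ∃ m : ℝ, m = -(N * Real.log 2) := ⟨_, rfl⟩
  have hlog : 0 < Real.log 2 := Real.log_pos (by norm_num)
  have hem : Real.exp m ≤ 1 / 2 := by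
    have h1 : m ≤ -Real.log 2 := by rw [hm]; nlinarith
    calc Real.exp m ≤ Real.exp (-Real.log 2) := Real.exp_le_exp.2 h1
      _ = 1 / 2 := by rw [Real.exp_neg, Real.exp_log (by norm_num)]; norm_num
  -- constants
  obtain ⟨C0, hC0⟩ := hSB a S n M ha hM haM
  obtain ⟨C, hC⟩ : ∃ C : ℝ, C = max C0 1 := ⟨_, rfl⟩
  have hC1 : 1 ≤ C := hC ▸ le_max_right _ _
  have hEE : ∀ z, 0 < EE a S n M z := fun z => Real.exp_pos _
  have hkk : ∀ z, kk S n M z ≤ C * EE a S n M z := fun z =>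
    (hC0 z).trans (mul_le_mul_of_nonneg_right (hC ▸ le_max_left _ _) (hEE z).le)
  obtain ⟨lam, hlam⟩ : ∃ lam : ℝ, lam = 2 * C * Real.exp (-(a * (m - 1 / 2))) := ⟨_, rfl⟩
  have hlam0 : 0 < lam := by rw [hlam]; positivity
  obtain ⟨μ₀, hμ₀, hμ⟩ := hSP a lam S n ha hlam0 hS hn
  obtain ⟨μ, hμd⟩ : ∃ μ : ℝ, μ = min μ₀ 1 := ⟨_, rfl⟩
  have hμ0 : 0 < μ := by rw [hμd]; exact lt_min hμ₀ one_pos
  have hμ1 : μ ≤ 1 := by rw [hμd]; exact min_le_right _ _
  have hμ2 : μ ≤ μ₀ := by rw [hμd]; exact min_le_left _ _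
  have hsup := hμ μ hμ0 hμ2
  obtain ⟨M', hM'⟩ := hWB S n M μ hM hμ0 hμ1
  obtain ⟨hv, hlv⟩ := hLV S n M hM
  obtain ⟨hV, hlV⟩ := hLW S n μ hμ0
  -- the coefficients
  have hU : ∀ k, CB k (fun z => ((EE a S n M z, BB S n M z, kk S n M z) : U3)) := by
    intro k
    obtain ⟨h1, h2, h3⟩ := hCX a S n M ha hM k
    exact hPA ℝ (ℝ × ℝ) k _ _ h1 (hPA ℝ ℝ k _ _ h2 h3)
  have hW : ContDiff ℝ ∞ (fun z => VV S n μ z - v0 S n M z) := hV.sub hv
  have hsub : ∀ x, 0 ≤ Fn a lam (((EE a S n M x, BB S n M x, kk S n M x) : U3), m) := by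
    intro z
    show 0 ≤ lam * EE a S n M z * Real.exp (a * (m - BB S n M z * Real.exp m)) *
      (1 - BB S n M z * Real.exp m) - kk S n M z
    obtain ⟨hb0, hb1⟩ := hBB S n M hM z
    have h1 : BB S n M z * Real.exp m ≤ 1 / 2 := by
      calc BB S n M z * Real.exp m ≤ 1 * Real.exp m :=
            mul_le_mul_of_nonneg_right hb1 (Real.exp_pos _).le
        _ ≤ 1 / 2 := by rw [one_mul]; exact hem
    have h2 : Real.exp (a * (m - 1 / 2)) ≤ Real.exp (a * (m - BB S n M z * Real.exp m)) := by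
      apply Real.exp_le_exp.2
      apply mul_le_mul_of_nonneg_left _ ha.le
      linarith
    have h3 : C * EE a S n M z ≤ lam * EE a S n M z *
        Real.exp (a * (m - BB S n M z * Real.exp m)) * (1 - BB S n M z * Real.exp m) := by
      have h4 : lam * Real.exp (a * (m - 1 / 2)) = 2 * C := by
        rw [hlam, mul_assoc, ← Real.exp_add]
        rw [show -(a * (m - 1 / 2)) + a * (m - 1 / 2) = 0 by ring, Real.exp_zero, mul_one]
      calc C * EE a S n M z = lam * EE a S n M z * Real.exp (a * (m - 1 / 2)) * (1 / 2) := by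
            rw [show lam * EE a S n M z * Real.exp (a * (m - 1 / 2)) * (1 / 2) =
              (lam * Real.exp (a * (m - 1 / 2))) * EE a S n M z * (1 / 2) by ring, h4]
            ring
        _ ≤ lam * EE a S n M z * Real.exp (a * (m - BB S n M z * Real.exp m)) * (1 / 2) := by
            apply mul_le_mul_of_nonneg_right _ (by norm_num)
            exact mul_le_mul_of_nonneg_left h2 (mul_pos hlam0 (hEE z)).le
        _ ≤ _ := by
            apply mul_le_mul_of_nonneg_left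
            · linarith
            · have := hEE z
              positivity
    linarith [hkk z]
  have hsupr : ∀ x, Fn a lam (((EE a S n M x, BB S n M x, kk S n M x) : U3),
      VV S n μ x - v0 S n M x) ≤ -lap (fun z => VV S n μ z - v0 S n M z) x := by
    intro z
    show lam * EE a S n M z *
      Real.exp (a * ((VV S n μ z - v0 S n M z) - BB S n M z * Real.exp (VV S n μ z - v0 S n M z))) *
      (1 - BB S n M z * Real.exp (VV S n μ z - v0 S n M z)) - kk S n M z ≤
      -lap (fun z => VV S n μ z - v0 S n M z) z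
    have e1 : BB S n M z * Real.exp (VV S n μ z - v0 S n M z) = gg S n z * Real.exp (VV S n μ z) := by
      unfold BB
      rw [mul_assoc, ← Real.exp_add]
      congr 2
      ring
    have e2 : EE a S n M z *
        Real.exp (a * ((VV S n μ z - v0 S n M z) - gg S n z * Real.exp (VV S n μ z))) =
        Real.exp (a * (VV S n μ z - gg S n z * Real.exp (VV S n μ z))) := by
      unfold EE
      rw [← Real.exp_add]
      congr 1
      ring
    rw [e1, lap_sub hV hv, mul_assoc lam, e2, hlv z]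
    have h1 := hsup z
    have h2 := hlV z
    rw [← h2] at h1
    rw [mul_assoc]
    linarith
  obtain ⟨w, hw1, hw2, hw3, hw4⟩ := hEX (Fn a lam)
    (fun z => ((EE a S n M z, BB S n M z, kk S n M z) : U3)) m M'
    (fun z => VV S n μ z - v0 S n M z) (Fn_smooth a lam) hU
    (by exact_mod_cast contDiff_infty.1 hW 2)
    (fun x => by rw [hm, hN]; exact (hM' x).1) (fun x => (hM' x).2) hsub hsupr
  refine ⟨lam, |m| + |M'|, w, hlam0, contDiff_infty.2 fun k => (hw1 k).1, ?_, hw4⟩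
  intro z
  rw [abs_le]
  have h1 := hw2 z
  have h2 := (hw3 z).trans (hM' z).2
  have h3 := neg_abs_le m
  have h4 := le_abs_self M'
  have h5 := abs_nonneg m
  have h6 := abs_nonneg M'
  constructor <;> linarith

end Pool.Agent.W721.GS.E2
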