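import Pool.Agent.W117.GS.Stm

/-!
# Transfer to the complex plane (project GS)
-/

set_option autoImplicit false

open scoped ContDiff
open Filter Topology Set
open Pool.Agent.W117.GS Pool.Agent.W117.GH
open Pool.Agent.Helper676.CS (lap dx dy dd dx_eq dy_eq contDiff_dd_infty)

noncomputable section

namespace Pool.Agent.W721.GS.E3

/-- the coordinates -/
def ee (z : ℂ) : ℝ × ℝ := (z.re, z.im)

lemma ee_inj : Function.Injective ee := by
  intro z w h
  exact Complex.ext (congrArg Prod.fst h) (congrArg Prod.snd h)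

lemma ee_eq : ee = fun z => Complex.equivRealProdCLM z := by
  funext z
  rfl

lemma ee_smooth : ContDiff ℝ ∞ ee := by
  rw [ee_eq]
  exact Complex.equivRealProdCLM.contDiff

lemma pd_comp {f : ℝ × ℝ → ℝ} (hf : ContDiff ℝ ∞ f) (j : Fin 2) :
    pd j (fun z => f (ee z)) = fun z => dd (ee (dir j)) f (ee z) := by
  funext z
  unfold pd dd
  have h1 : HasFDerivAt ee (Complex.equivRealProdCLM : ℂ →L[ℝ] ℝ × ℝ) z := by
    rw [ee_eq]
    exact Complex.equivRealProdCLM.hasFDerivAt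
  have h2 : HasFDerivAt f (fderiv ℝ f (ee z)) (ee z) :=
    (hf.differentiable (by simp) _).hasFDerivAt
  have h3 := (h2.comp z h1).fderiv
  have h4 : fderiv ℝ (fun z => f (ee z)) z =
      (fderiv ℝ f (ee z)).comp (Complex.equivRealProdCLM : ℂ →L[ℝ] ℝ × ℝ) := h3
  rw [h4]
  rfl

lemma Lap_comp {f : ℝ × ℝ → ℝ} (hf : ContDiff ℝ ∞ f) (z : ℂ) :
    Lap (fun z => f (ee z)) z = lap f (ee z) := by
  unfold Lap lap
  rw [pd_comp hf 0, pd_comp hf 1, pd_comp (contDiff_dd_infty hf _) 0,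
    pd_comp (contDiff_dd_infty hf _) 1]
  have e0 : ee (dir 0) = (1, 0) := by simp [ee, dir]
  have e1 : ee (dir 1) = (0, 1) := by simp [ee, dir]
  rw [e0, e1]
  rfl

lemma dd_add {f g : ℝ × ℝ → ℝ} (hf : ContDiff ℝ ∞ f) (hg : ContDiff ℝ ∞ g) (e : ℝ × ℝ) (κ : ℝ) :
    dd e (fun x => f x + g x + κ) = fun x => dd e f x + dd e g x := by
  funext x
  unfold dd
  have h1 : DifferentiableAt ℝ f x := hf.differentiable (by simp) x
  have h2 : DifferentiableAt ℝ g x := hg.differentiable (by simp) x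
  rw [fderiv_add_const, fderiv_fun_add h1 h2]
  rfl

lemma dd_add' {f g : ℝ × ℝ → ℝ} (hf : ContDiff ℝ ∞ f) (hg : ContDiff ℝ ∞ g) (e : ℝ × ℝ) :
    dd e (fun x => f x + g x) = fun x => dd e f x + dd e g x := by
  have := dd_add hf hg e 0
  simpa using this

lemma lap_add {f g : ℝ × ℝ → ℝ} (hf : ContDiff ℝ ∞ f) (hg : ContDiff ℝ ∞ g) (κ : ℝ)
    (x : ℝ × ℝ) : lap (fun x => f x + g x + κ) x = lap f x + lap g x := by
  unfold lap
  rw [dx_eq, dy_eq, dd_add hf hg, dd_add hf hg,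
    dd_add' (contDiff_dd_infty hf _) (contDiff_dd_infty hg _),
    dd_add' (contDiff_dd_infty hf _) (contDiff_dd_infty hg _)]
  ring

/-- the multiplicities as a function on the real plane -/
def nn (n : ℂ → ℕ) (x : ℝ × ℝ) : ℕ := n ⟨x.1, x.2⟩

lemma nn_ee (n : ℂ → ℕ) (z : ℂ) : nn n (ee z) = n z := rfl

lemma sum_nn (S : Finset ℂ) (n : ℂ → ℕ) :
    ∑ p ∈ S.image ee, (nn n p : ℝ) = ∑ p ∈ S, (n p : ℝ) := by
  rw [Finset.sum_image (fun x _ y _ h => ee_inj h)]
  rfl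

lemma sp_ee (p z : ℂ) : sp (ee p) (ee z) = Complex.normSq (z - p) := by
  unfold sp ee
  rw [Complex.normSq_apply, Complex.sub_re, Complex.sub_im]
  ring

lemma normSq_prod (S : Finset ℂ) (n : ℂ → ℕ) (z : ℂ) :
    Complex.normSq (∏ p ∈ S, (z - p) ^ n p) = gg (S.image ee) (nn n) (ee z) := by
  unfold gg
  rw [map_prod, Finset.prod_image (fun x _ y _ h => ee_inj h)]
  refine Finset.prod_congr rfl fun p _ => ?_
  rw [map_pow, sp_ee, nn_ee]

theorem main (hE2 : PropE2) (hLV : PropLV) (hBB : PropBB) (hDC : PropDC) : PropE3 := by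
  intro a S n ha hS hn
  obtain ⟨M, hMd⟩ : ∃ M : ℕ, M = max 1 ⌈a * ∑ p ∈ S, (n p : ℝ)⌉₊ := ⟨_, rfl⟩
  have hM : 1 ≤ M := hMd ▸ le_max_left _ _
  have hM2 : a * ∑ p ∈ S, (n p : ℝ) ≤ M + 1 := by
    have h1 : a * ∑ p ∈ S, (n p : ℝ) ≤ (⌈a * ∑ p ∈ S, (n p : ℝ)⌉₊ : ℝ) := Nat.le_ceil _
    have h2 : (⌈a * ∑ p ∈ S, (n p : ℝ)⌉₊ : ℝ) ≤ M := by
      exact_mod_cast hMd ▸ le_max_right _ _
    linarith
  obtain ⟨lam, C1, w, hlam, hw, hwC, hwe⟩ := hE2 a (S.image ee) (nn n) M ha hM (hS.image _)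
    (by
      intro p hp
      obtain ⟨q, hq, rfl⟩ := Finset.mem_image.1 hp
      exact hn q hq) (by rw [sum_nn]; exact hM2)
  obtain ⟨CD, hCD⟩ := hDC a (S.image ee) (nn n) M ha hM
  obtain ⟨hv0, hlv0⟩ := hLV (S.image ee) (nn n) M hM
  obtain ⟨κ, hκ⟩ : ∃ κ : ℝ, κ = Real.log lam / a := ⟨_, rfl⟩
  have haκ : a * κ = Real.log lam := by rw [hκ]; field_simp
  have hf : ContDiff ℝ ∞ (fun x : ℝ × ℝ => v0 (S.image ee) (nn n) M x + w x + κ) :=
    (hv0.add hw).add contDiff_const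
  -- the function `|g|² e^v`
  have hg : ∀ z : ℂ, Complex.normSq (((Real.exp (-(κ / 2)) : ℝ) : ℂ) * ∏ p ∈ S, (z - p) ^ n p) *
      Real.exp (v0 (S.image ee) (nn n) M (ee z) + w (ee z) + κ) =
      BB (S.image ee) (nn n) M (ee z) * Real.exp (w (ee z)) := by
    intro z
    have e1 : Real.exp (v0 (S.image ee) (nn n) M (ee z) + w (ee z) + κ) =
        Real.exp (v0 (S.image ee) (nn n) M (ee z)) * Real.exp (w (ee z)) * Real.exp κ := by
      rw [Real.exp_add, Real.exp_add]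
    rw [map_mul, normSq_prod, Complex.normSq_ofReal, ← Real.exp_add, e1]
    unfold BB
    have h1 : Real.exp (-(κ / 2) + -(κ / 2)) * Real.exp κ = 1 := by
      rw [← Real.exp_add]
      rw [show -(κ / 2) + -(κ / 2) + κ = 0 by ring, Real.exp_zero]
    calc _ = (Real.exp (-(κ / 2) + -(κ / 2)) * Real.exp κ) * (gg (S.image ee) (nn n) (ee z) *
          Real.exp (v0 (S.image ee) (nn n) M (ee z)) * Real.exp (w (ee z))) := by ring
      _ = _ := by rw [h1, one_mul]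
  have hexp : ∀ z : ℂ, ∀ t : ℝ,
      Real.exp (a * (v0 (S.image ee) (nn n) M (ee z) + w (ee z) + κ - t)) =
      lam * W117.GS.EE a (S.image ee) (nn n) M (ee z) * Real.exp (a * (w (ee z) - t)) := by
    intro z t
    unfold W117.GS.EE
    have h1 : lam = Real.exp (a * κ) := by rw [haκ, Real.exp_log hlam]
    rw [h1, ← Real.exp_add, ← Real.exp_add]
    congr 1
    ring
  have hw0 : ∀ z : ℂ, Real.exp (w (ee z)) ≤ Real.exp C1 := fun z =>
    Real.exp_le_exp.2 ((le_abs_self _).trans (hwC _))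
  refine ⟨Real.exp (-(κ / 2)), max (Real.exp C1) (lam * Real.exp (a * C1) * CD),
    fun z => v0 (S.image ee) (nn n) M (ee z) + w (ee z) + κ, Real.exp_pos _,
    hf.comp ee_smooth, ?_, ?_, ?_⟩
  · intro z
    rw [hg z]
    have h1 := Lap_comp hf z
    rw [h1, lap_add hv0 hw κ, hlv0, hexp z]
    have h2 := hwe (ee z)
    linarith
  · intro z
    rw [hg z]
    obtain ⟨hb0, hb1⟩ := hBB (S.image ee) (nn n) M hM (ee z)
    calc BB (S.image ee) (nn n) M (ee z) * Real.exp (w (ee z)) ≤ 1 * Real.exp C1 :=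
          mul_le_mul hb1 (hw0 z) (Real.exp_pos _).le (by norm_num)
      _ ≤ _ := by rw [one_mul]; exact le_max_left _ _
  · intro z
    simp only
    have h1 := hexp z 0
    rw [sub_zero, sub_zero] at h1
    rw [h1]
    have h2 := hCD z
    rw [sum_nn] at h2
    have h3 : W117.GS.EE a (S.image ee) (nn n) M (ee z) ≤
        CD * (1 + ‖z‖) ^ (-(2 * a * ∑ p ∈ S, (n p : ℝ))) := h2
    have h4 : Real.exp (a * w (ee z)) ≤ Real.exp (a * C1) :=
      Real.exp_le_exp.2 (mul_le_mul_of_nonneg_left ((le_abs_self _).trans (hwC _)) ha.le)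
    have hEEp : 0 < W117.GS.EE a (S.image ee) (nn n) M (ee z) := Real.exp_pos _
    calc lam * W117.GS.EE a (S.image ee) (nn n) M (ee z) * Real.exp (a * w (ee z))
        ≤ lam * W117.GS.EE a (S.image ee) (nn n) M (ee z) * Real.exp (a * C1) :=
          mul_le_mul_of_nonneg_left h4 (by positivity)
      _ = lam * Real.exp (a * C1) * W117.GS.EE a (S.image ee) (nn n) M (ee z) := by ring
      _ ≤ lam * Real.exp (a * C1) * (CD * (1 + ‖z‖) ^ (-(2 * a * ∑ p ∈ S, (n p : ℝ)))) :=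
          mul_le_mul_of_nonneg_left h3 (by positivity)
      _ = lam * Real.exp (a * C1) * CD * (1 + ‖z‖) ^ (-(2 * a * ∑ p ∈ S, (n p : ℝ))) := by ring
      _ ≤ _ := by
          apply mul_le_mul_of_nonneg_right (le_max_right _ _)
          exact Real.rpow_nonneg (by positivity) _

end Pool.Agent.W721.GS.E3
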